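import Pool.Agent.H862R2.LocC1d

/-!
# C1c: the coefficients of `ren s σ` for `σ` of sum type

The index set and the bound `JD_ren` for the joint degree are due to helper862 (`LocC1d`).
-/

set_option autoImplicit false

namespace Pool.Agent.H626R2.Loc

open MvPolynomial

open C1d

variable {K : Type} [Field K] {n : ℕ}

/-- C1c. -/
theorem coeff_ren_sum {r : ℕ} (s : Fin r → Fin n) (hs : Function.Injective s) {δ : ℕ}
    {σ : MvPolynomial (Fin n) K} (hσ : SumType δ σ) :
    ∃ F : Fin ((r + δ).choose r) → MvPolynomial (Fin n) K, (∀ i, SumType δ (F i)) ∧
      ∀ m, (ren s σ).coeff m ∈ Algebra.adjoin K (Set.range F) := by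
  classical
  obtain ⟨u, q, hq, rfl⟩ := hσ
  obtain ⟨f, hf⟩ := exists_index r δ
  set I : Finset (Fin n) := Finset.univ.image s with hI
  set U : MvPolynomial (Fin n) K := ∑ m ∈ Iᶜ, Polynomial.aeval (X m) (u m) with hU
  have hJ := JD_ren s hs q
  refine ⟨fun i => (if f i = 0 then U else 0) + coeff (f i) (ren s q), ?_, ?_⟩
  · intro i
    refine ⟨fun m => if f i = 0 then (if m ∈ I then 0 else u m) else 0,
      coeff (f i) (ren s q), ?_, ?_⟩
    · unfold totalDegree
      apply Finset.sup_le
      intro β hβ
      have h1 := hJ (f i) β (mem_support_iff.mp hβ)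
      have h2 : β.sum (fun _ e => e) = β.degree := rfl
      omega
    · change (if f i = 0 then U else 0) + coeff (f i) (ren s q) = _
      congr 1
      by_cases h0 : f i = 0
      · simp only [if_pos h0]
        rw [← Finset.sum_add_sum_compl I
          (fun m => Polynomial.aeval (X m : MvPolynomial (Fin n) K) (if m ∈ I then 0 else u m))]
        have h1 : ∑ m ∈ I, Polynomial.aeval (X m : MvPolynomial (Fin n) K)
            (if m ∈ I then 0 else u m) = 0 := by
          apply Finset.sum_eq_zero
          intro m hm
          rw [if_pos hm, map_zero]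
        rw [h1, zero_add, hU]
        apply Finset.sum_congr rfl
        intro m hm
        rw [if_neg (Finset.mem_compl.mp hm)]
      · simp only [if_neg h0, map_zero, Finset.sum_const_zero]
  · intro m
    -- the sum of the univariate polynomials
    have h1 : ren s (∑ m, Polynomial.aeval (X m : MvPolynomial (Fin n) K) (u m))
        = MvPolynomial.map (C : K →+* MvPolynomial (Fin n) K)
            (∑ b, Polynomial.aeval (X b : MvPolynomial (Fin r) K) (u (s b))) + C U := by
      rw [← Finset.sum_add_sum_compl I, map_add]
      congr 1
      · rw [hI, Finset.sum_image (fun a _ b _ h => hs h), map_sum, map_sum]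
        apply Finset.sum_congr rfl
        intro b _
        rw [← Polynomial.aeval_algHom_apply, ren_X_alive s hs]
        have h2 : (MvPolynomial.map (C : K →+* MvPolynomial (Fin n) K)
            (Polynomial.aeval (X b : MvPolynomial (Fin r) K) (u (s b))))
            = MvPolynomial.mapAlgHom (Algebra.ofId K (MvPolynomial (Fin n) K))
              (Polynomial.aeval (X b : MvPolynomial (Fin r) K) (u (s b))) := rfl
        rw [h2, ← Polynomial.aeval_algHom_apply]
        congr 1
        simp [MvPolynomial.mapAlgHom_apply]
      · rw [hU, map_sum, map_sum]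
        apply Finset.sum_congr rfl
        intro i hi
        rw [← Polynomial.aeval_algHom_apply, ren_X_dead s i]
        · have h2 : (C (Polynomial.aeval (X i : MvPolynomial (Fin n) K) (u i)) :
              MvPolynomial (Fin r) (MvPolynomial (Fin n) K))
              = IsScalarTower.toAlgHom K (MvPolynomial (Fin n) K)
                (MvPolynomial (Fin r) (MvPolynomial (Fin n) K))
                (Polynomial.aeval (X i : MvPolynomial (Fin n) K) (u i)) := rfl
          rw [h2, ← Polynomial.aeval_algHom_apply]
          rfl
        · rintro ⟨b, hb⟩
          apply Finset.mem_compl.mp hi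
          rw [hI, ← hb]
          exact Finset.mem_image_of_mem s (Finset.mem_univ b)
    rw [map_add, h1, coeff_add, coeff_add, coeff_map, add_assoc]
    apply Subalgebra.add_mem
    · exact Subalgebra.algebraMap_mem _ _
    · by_cases hm : m.degree ≤ δ
      · obtain ⟨i, hi⟩ := hf m hm
        apply Algebra.subset_adjoin
        refine ⟨i, ?_⟩
        simp only [hi, coeff_C]
        congr 1
        by_cases h0 : m = 0
        · rw [if_pos h0, if_pos h0.symm]
        · rw [if_neg h0, if_neg (Ne.symm h0)]
      · have h0 : m ≠ 0 := by
          rintro rfl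
          simp at hm
        have h2 : coeff m (ren s q) = 0 := by
          by_contra hb
          obtain ⟨β, hβ⟩ := ne_zero_iff.mp hb
          have h2 := hJ m β hβ
          omega
        rw [h2, coeff_C, if_neg (Ne.symm h0), add_zero]
        exact Subalgebra.zero_mem _

end Pool.Agent.H626R2.Loc
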