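import Mathlib

/-!
# The Kuratowski–Ryll-Nardzewski selection theorem

with a selector which depends only on the value of the multifunction, and Borel transversals for
the cosets of a closed subgroup of a Polish group.
-/

set_option autoImplicit false
set_option linter.all false

namespace Pool.Agent.H584R2.Sel

open Filter Topology Set Metric

/-- indices of the approximating sequence -/
noncomputable def NN {X : Type*} [MetricSpace X] (q : ℕ → X) : ℕ → Set X → ℕ
  | 0, S => sInf {m | (S ∩ ball (q m) 1).Nonempty}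
  | k + 1, S => sInf {m | (S ∩ (ball (q (NN q k S)) ((1 / 2 : ℝ) ^ k) ∩
      ball (q m) ((1 / 2 : ℝ) ^ (k + 1)))).Nonempty}

theorem measurable_sInf_nat {α : Type*} [MeasurableSpace α] (p : α → ℕ → Prop)
    (hp : ∀ m, MeasurableSet {a | p a m}) : Measurable fun a => sInf {m | p a m} := by
  classical
  let p' : α → ℕ → Prop := fun a m => p a m ∨ (m = 0 ∧ ∀ k, ¬ p a k)
  have hp' : ∀ m, MeasurableSet {a | p' a m} := by
    intro m
    have h1 : {a | p' a m} = {a | p a m} ∪ ({a | m = 0} ∩ ⋂ k, {a | p a k}ᶜ) := by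
      ext a
      simp only [p', mem_union, mem_inter_iff, mem_iInter, mem_compl_iff, Set.mem_ofPred_eq]
    rw [h1]
    exact (hp m).union ((MeasurableSet.const _).inter (MeasurableSet.iInter fun k => (hp k).compl))
  have hex : ∀ a, ∃ m, p' a m := by
    intro a
    by_cases h : ∃ m, p a m
    · obtain ⟨m, hm⟩ := h
      exact ⟨m, Or.inl hm⟩
    · push Not at h
      exact ⟨0, Or.inr ⟨rfl, h⟩⟩
  have h1 : (fun a => sInf {m | p a m}) = fun a => Nat.find (hex a) := by
    funext a
    by_cases h : ∃ m, p a m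
    · have h2 : ∀ m, p' a m ↔ p a m := by
        intro m
        constructor
        · rintro (h3 | ⟨-, h3⟩)
          · exact h3
          · obtain ⟨k, hk⟩ := h
            exact absurd hk (h3 k)
        · exact Or.inl
      have h4 : {m | p a m}.Nonempty := h
      symm
      rw [Nat.find_eq_iff]
      refine ⟨(h2 _).2 (Nat.sInf_mem h4), ?_⟩
      intro n hn h5
      exact Nat.notMem_of_lt_sInf hn ((h2 n).1 h5)
    · have h2 : {m | p a m} = ∅ := by
        ext m
        simp only [Set.mem_ofPred_eq, mem_empty_iff_false, iff_false]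
        intro hm
        exact h ⟨m, hm⟩
      rw [h2, Nat.sInf_empty]
      symm
      rw [Nat.find_eq_zero]
      push Not at h
      exact Or.inr ⟨rfl, h⟩
  rw [h1]
  exact measurable_find hex hp'

section

variable {X : Type*} [MetricSpace X] (q : ℕ → X) (hq : DenseRange q)

include hq in
theorem exists_ball {S : Set X} {O : Set X} (h : (S ∩ O).Nonempty) (r : ℝ) (hr : 0 < r) :
    ∃ m, (S ∩ (O ∩ ball (q m) r)).Nonempty := by
  obtain ⟨x, hx1, hx2⟩ := h
  obtain ⟨m, hm⟩ := hq.exists_dist_lt x hr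
  exact ⟨m, x, hx1, hx2, hm⟩

include hq in
theorem NN_spec {S : Set X} (hS : S.Nonempty) (k : ℕ) :
    (S ∩ ball (q (NN q k S)) ((1 / 2 : ℝ) ^ k)).Nonempty := by
  induction k with
  | zero =>
    have h1 : {m | (S ∩ ball (q m) 1).Nonempty}.Nonempty := by
      obtain ⟨m, hm⟩ := exists_ball q hq (S := S) (O := univ) (by simpa using hS) 1 one_pos
      refine ⟨m, ?_⟩
      simpa using hm
    have h2 := Nat.sInf_mem h1
    simpa [NN] using h2
  | succ k ih =>
    have h1 : {m | (S ∩ (ball (q (NN q k S)) ((1 / 2 : ℝ) ^ k) ∩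
      ball (q m) ((1 / 2 : ℝ) ^ (k + 1)))).Nonempty}.Nonempty :=
      exists_ball q hq ih ((1 / 2 : ℝ) ^ (k + 1)) (by positivity)
    have h2 := Nat.sInf_mem h1
    obtain ⟨x, hx1, hx2, hx3⟩ := h2
    exact ⟨x, hx1, hx3⟩

include hq in
theorem NN_dist {S : Set X} (hS : S.Nonempty) (k : ℕ) :
    dist (q (NN q k S)) (q (NN q (k + 1) S)) ≤ 2 * (1 / 2 : ℝ) ^ k := by
  have ih := NN_spec q hq hS k
  have h1 : {m | (S ∩ (ball (q (NN q k S)) ((1 / 2 : ℝ) ^ k) ∩
      ball (q m) ((1 / 2 : ℝ) ^ (k + 1)))).Nonempty}.Nonempty :=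
      exists_ball q hq ih ((1 / 2 : ℝ) ^ (k + 1)) (by positivity)
  have h2 := Nat.sInf_mem h1
  obtain ⟨x, hx1, hx2, hx3⟩ := h2
  have h3 : dist x (q (NN q k S)) < (1 / 2 : ℝ) ^ k := hx2
  have h4 : dist x (q (NN q (k + 1) S)) < (1 / 2 : ℝ) ^ (k + 1) := hx3
  have h5 := dist_triangle_left (q (NN q k S)) (q (NN q (k + 1) S)) x
  have h6 : (1 / 2 : ℝ) ^ (k + 1) = (1 / 2 : ℝ) ^ k * (1 / 2) := pow_succ _ _
  have h7 : (0 : ℝ) < (1 / 2 : ℝ) ^ k := by positivity
  linarith

include hq in
theorem NN_tendsto [CompleteSpace X] {S : Set X} (hS : S.Nonempty) (hcl : IsClosed S) :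
    ∃ x ∈ S, Tendsto (fun k => q (NN q k S)) atTop (𝓝 x) := by
  have hc : CauchySeq fun k => q (NN q k S) :=
    cauchySeq_of_le_geometric (1 / 2 : ℝ) 2 (by norm_num) (NN_dist q hq hS)
  obtain ⟨x, hx⟩ := cauchySeq_tendsto_of_complete hc
  refine ⟨x, ?_, hx⟩
  choose z hz using NN_spec q hq hS
  have h1 : Tendsto z atTop (𝓝 x) := by
    have h2 : Tendsto (fun k => dist (q (NN q k S)) (z k)) atTop (𝓝 0) := by
      refine squeeze_zero (fun k => dist_nonneg) (fun k => ?_)
        (tendsto_pow_atTop_nhds_zero_of_lt_one (r := (1 / 2 : ℝ)) (by norm_num) (by norm_num))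
      have h3 : dist (z k) (q (NN q k S)) < (1 / 2 : ℝ) ^ k := (hz k).2
      rw [dist_comm]
      exact h3.le
    exact (tendsto_iff_of_dist h2).1 hx
  exact hcl.mem_of_tendsto h1 (Eventually.of_forall fun k => (hz k).1)

end

/-- Kuratowski–Ryll-Nardzewski, with a selector depending only on the value. -/
theorem selector {α : Type*} [MeasurableSpace α] {X : Type*} [TopologicalSpace X] [PolishSpace X]
    [MeasurableSpace X] [BorelSpace X] (F : α → Set X) (hne : ∀ a, (F a).Nonempty)
    (hcl : ∀ a, IsClosed (F a)) (hm : ∀ O, IsOpen O → MeasurableSet {a | (F a ∩ O).Nonempty}) :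
    ∃ s : α → X, Measurable s ∧ (∀ a, s a ∈ F a) ∧ ∀ a b, F a = F b → s a = s b := by
  classical
  by_cases hα : Nonempty α
  swap
  · have : IsEmpty α := not_nonempty_iff.1 hα
    exact ⟨fun a => isEmptyElim a, measurable_of_empty _, fun a => isEmptyElim a,
      fun a => isEmptyElim a⟩
  obtain ⟨a0⟩ := hα
  haveI : Nonempty X := (hne a0).to_type
  letI := TopologicalSpace.upgradeIsCompletelyMetrizable X
  let q := TopologicalSpace.denseSeq X
  have hq : DenseRange q := TopologicalSpace.denseRange_denseSeq X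
  have hlim : ∀ a, ∃ x ∈ F a, Tendsto (fun k => q (NN q k (F a))) atTop (𝓝 x) := fun a =>
    NN_tendsto q hq (hne a) (hcl a)
  choose s hs1 hs2 using hlim
  have hN : ∀ k, Measurable fun a => NN q k (F a) := by
    intro k
    induction k with
    | zero =>
      exact measurable_sInf_nat (fun a m => (F a ∩ ball (q m) 1).Nonempty) fun m =>
        hm _ isOpen_ball
    | succ k ih =>
      have h1 : Measurable fun r : ℕ × α => sInf {m | (F r.2 ∩ (ball (q r.1) ((1 / 2 : ℝ) ^ k) ∩
          ball (q m) ((1 / 2 : ℝ) ^ (k + 1)))).Nonempty} := by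
        refine measurable_from_prod_countable_right fun j => ?_
        exact measurable_sInf_nat (fun a m => (F a ∩ (ball (q j) ((1 / 2 : ℝ) ^ k) ∩
          ball (q m) ((1 / 2 : ℝ) ^ (k + 1)))).Nonempty) fun m =>
          hm _ (isOpen_ball.inter isOpen_ball)
      exact h1.comp (ih.prodMk measurable_id)
  refine ⟨s, ?_, hs1, ?_⟩
  · refine measurable_of_tendsto_metrizable (f := fun k a => q (NN q k (F a))) ?_ ?_
    · intro k
      exact (measurable_from_nat (f := q)).comp (hN k)
    · rw [tendsto_pi_nhds]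
      exact hs2
  · intro a b hab
    have h1 := hs2 b
    rw [← hab] at h1
    exact tendsto_nhds_unique (hs2 a) h1

/-- A Borel transversal for the left cosets of a closed subgroup of a Polish group. -/
theorem transversal {U : Type*} [TopologicalSpace U] [Group U] [IsTopologicalGroup U] [PolishSpace U]
    [MeasurableSpace U] [BorelSpace U] (G : Subgroup U) (hG : IsClosed (G : Set U)) :
    ∃ T : Set U, MeasurableSet T ∧ (∀ u, ∃ t ∈ T, t⁻¹ * u ∈ G) ∧
      ∀ t ∈ T, ∀ t' ∈ T, t⁻¹ * t' ∈ G → t = t' := by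
  obtain ⟨s, hs1, hs2, hs3⟩ := selector (fun u : U => {x : U | u⁻¹ * x ∈ G})
    (fun u => ⟨u, by simp [G.one_mem]⟩)
    (fun u => hG.preimage (continuous_const.mul continuous_id)) (by
      intro O hO
      have h1 : {a : U | ({x : U | a⁻¹ * x ∈ G} ∩ O).Nonempty} =
          ⋃ g ∈ (G : Set U), (fun a => a * g) ⁻¹' O := by
        ext a
        simp only [mem_iUnion, mem_preimage, exists_prop]
        constructor
        · rintro ⟨x, hx1, hx2⟩
          refine ⟨a⁻¹ * x, hx1, ?_⟩
          simpa using hx2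
        · rintro ⟨g, hg, hO⟩
          refine ⟨a * g, ?_, hO⟩
          show a⁻¹ * (a * g) ∈ G
          simpa using hg
      rw [h1]
      exact (isOpen_biUnion fun g _ => hO.preimage (continuous_id.mul continuous_const)).measurableSet)
  have hF : ∀ a b : U, a⁻¹ * b ∈ G → {x : U | a⁻¹ * x ∈ G} = {x : U | b⁻¹ * x ∈ G} := by
    intro a b hab
    ext x
    constructor
    · intro hx
      have hx' : a⁻¹ * x ∈ G := hx
      have h1 := G.mul_mem (G.inv_mem hab) hx'
      show b⁻¹ * x ∈ G
      have h2 : (a⁻¹ * b)⁻¹ * (a⁻¹ * x) = b⁻¹ * x := by group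
      rwa [h2] at h1
    · intro hx
      have hx' : b⁻¹ * x ∈ G := hx
      have h1 := G.mul_mem hab hx'
      show a⁻¹ * x ∈ G
      have h2 : (a⁻¹ * b) * (b⁻¹ * x) = a⁻¹ * x := by group
      rwa [h2] at h1
  refine ⟨{u | s u = u}, measurableSet_eq_fun hs1 measurable_id, ?_, ?_⟩
  · intro u
    have h1 : u⁻¹ * s u ∈ G := hs2 u
    refine ⟨s u, hs3 _ _ ?_, ?_⟩
    · exact (hF u (s u) h1).symm
    · have h2 := G.inv_mem h1
      simpa using h2
  · intro t ht t' ht' h
    have h1 := hs3 _ _ (hF t t' h)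
    have h2 : s t = t := ht
    have h3 : s t' = t' := ht'
    rw [← h2, h1, h3]

end Pool.Agent.H584R2.Sel
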