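import Mathlib
import Pool.Agent.H584R2.Coding
import Pool.Agent.H584R2.Selector

/-!
# Saturations of coded actions are Borel
-/

set_option autoImplicit false
set_option linter.all false

namespace Pool.Agent.H584R2.Univ

open Filter Topology Set

/-- If `f : Y → X` is an injective Borel map into a Borel `U`-space such that the elements of a
closed subgroup `G` preserve the range of `f` and all other elements of `U` move the range of `f` off
itself, then the saturation of the range of `f` is Borel, and there is a Borel map back. -/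
theorem transfer {U : Type} [TopologicalSpace U] [Group U] [IsTopologicalGroup U] [PolishSpace U]
    [MeasurableSpace U] [BorelSpace U] (G : Subgroup U) (hG : IsClosed (G : Set U))
    {X : Type} [MeasurableSpace X] [StandardBorelSpace X] [MulAction U X]
    (hact : Measurable fun q : U × X => q.1 • q.2)
    {Y : Type} [MeasurableSpace Y] [StandardBorelSpace Y] (f : Y → X) (hf : Measurable f)
    (hinj : Function.Injective f) (htr : ∀ (y : Y) (g : G), ∃ y', (g : U) • f y = f y')
    (hback : ∀ (y y' : Y) (u : U), u • f y = f y' → u ∈ G) :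
    ∃ B : Set X, MeasurableSet B ∧ (∀ x, x ∈ B ↔ ∃ (u : U) (y : Y), u • f y = x) ∧
      ∃ g : B → Y, Measurable g ∧ ∀ x : B, ∃ u : U, u • f (g x) = x := by
  obtain ⟨T, hT, hT1, hT2⟩ := Sel.transversal G hG
  let Φ : U × Y → X := fun q => q.1 • f q.2
  have hΦ : Measurable Φ := hact.comp (measurable_fst.prodMk (hf.comp measurable_snd))
  have hΦi : InjOn Φ (T ×ˢ (univ : Set Y)) := by
    rintro ⟨t, y⟩ ⟨ht, -⟩ ⟨t', y'⟩ ⟨ht', -⟩ h
    have h1 : t • f y = t' • f y' := h
    have h2 : (t'⁻¹ * t) • f y = f y' := by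
      rw [mul_smul, h1, inv_smul_smul]
    have h3 : t' = t := hT2 t' ht' t ht (hback _ _ _ h2)
    subst h3
    have h4 : f y = f y' := smul_left_cancel _ h1
    rw [hinj h4]
  have hS : MeasurableSet (T ×ˢ (univ : Set Y)) := hT.prod MeasurableSet.univ
  refine ⟨Φ '' (T ×ˢ univ), hS.image_of_measurable_injOn hΦ hΦi, ?_, ?_⟩
  · intro x
    constructor
    · rintro ⟨⟨t, y⟩, -, rfl⟩
      exact ⟨t, y, rfl⟩
    · rintro ⟨u, y, rfl⟩
      obtain ⟨t, ht, htu⟩ := hT1 u
      obtain ⟨y', hy'⟩ := htr y ⟨_, htu⟩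
      refine ⟨(t, y'), ⟨ht, mem_univ _⟩, ?_⟩
      show t • f y' = u • f y
      rw [← hy']
      show t • ((t⁻¹ * u) • f y) = u • f y
      rw [smul_smul, mul_inv_cancel_left]
  · have hex : ∀ x : (Φ '' (T ×ˢ univ) : Set X), ∃ q : U × Y, q ∈ T ×ˢ (univ : Set Y) ∧ Φ q = x :=
      fun x => x.2
    choose ψ hψ1 hψ2 using hex
    have hψm : Measurable ψ := by
      intro A hA
      have h1 : ψ ⁻¹' A = Subtype.val ⁻¹' (Φ '' (T ×ˢ univ ∩ A)) := by
        ext x
        constructor
        · intro hx
          exact ⟨ψ x, ⟨hψ1 x, hx⟩, hψ2 x⟩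
        · rintro ⟨q, ⟨hq1, hq2⟩, hq3⟩
          have h2 : ψ x = q := hΦi (hψ1 x) hq1 ((hψ2 x).trans hq3.symm)
          show ψ x ∈ A
          rw [h2]
          exact hq2
      rw [h1]
      exact measurable_subtype_coe
        ((hS.inter hA).image_of_measurable_injOn hΦ (hΦi.mono inter_subset_left))
    exact ⟨fun x => (ψ x).2, measurable_snd.comp hψm, fun x => ⟨(ψ x).1, hψ2 x⟩⟩

end Pool.Agent.H584R2.Univ
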